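import Pool.Agent.R518.B.IPr

/-!
# Representations of type `(a, 0)` of almost all multiples of a small primorial
-/

set_option autoImplicit false

open Finset

namespace Pool.Agent.Results.MP_778b46_nt.AlmostAllMultiples

/-- The `i`-th `a`-prime: the `(a + 1)`-fold iterate of `k ↦ k`-th prime, applied to `i`. -/
noncomputable def ip (a i : ℕ) : ℕ := Nat.iterate (fun k : ℕ => Nat.nth Nat.Prime (k - 1)) (a + 1) i

open Classical in
/-- The `a`-primes `≤ x`. -/
noncomputable def IPs (a x : ℕ) : Finset ℕ := (Icc 1 x).filter (fun u => ∃ i : ℕ, 0 < i ∧ ip a i = u)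

/-- The product of `1 - 1/q` over the primes `q ≤ y`. -/
noncomputable def V (y : ℕ) : ℝ := ∏ q ∈ (Icc 1 y).filter Nat.Prime, (1 - 1 / (q : ℝ))

/-- The `u ∈ S` such that `N - u` is prime. -/
def Rep (S : Finset ℕ) (N : ℕ) : Finset ℕ := S.filter (fun u => (N - u).Prime)

/-- For every `a`: there are at least `c x / log ^ (a + 1) x` `a`-primes `u ≤ x` (`c > 0` depends on `a`, `x` is
large), and for all `C` and `0 < ε ≤ 1` there is `K₀` such that for every `K₁` and every large `x`, every `y` between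
`K₀ log log x` and `K₁ log log x`, with `M` the product of the primes `≤ y`, and every window `(g₀, g₀ + G]` with
`x ≤ M g₀`, `M (g₀ + G) ≤ 2 x`, `G ≥ x / (M log ^ C x)`: for all but at most `ε G` of the `g ≤ G` the number
`N = M (g₀ + g)` has at least `(1 - ε) #U / (V y log x)` representations `N = u + v`, `u ∈ U` and `v` a prime, where
`U` is the set of all `a`-primes `u ≤ x`. -/
theorem result (a : ℕ) : (∃ c : ℝ, 0 < c ∧ ∃ x₀ : ℕ, ∀ x : ℕ, x₀ ≤ x →
      c * x ≤ ((IPs a x).card : ℝ) * Real.log x ^ (a + 1)) ∧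
    ∀ (C : ℕ) (ε : ℝ), 0 < ε → ε ≤ 1 → ∃ K₀ : ℕ, ∀ K₁ : ℕ, ∃ x₀ : ℕ, ∀ x : ℕ, x₀ ≤ x →
    ∀ y : ℕ, K₀ * Real.log (Real.log x) ≤ y → y ≤ K₁ * Real.log (Real.log x) →
    ∀ g₀ G : ℕ, x ≤ primorial y * g₀ → primorial y * (g₀ + G) ≤ 2 * x → (x : ℝ) ≤ primorial y * G * Real.log x ^ C →
    (((Icc 1 G).filter (fun g => ((Rep (IPs a x) (primorial y * (g₀ + g))).card : ℝ) <
      (1 - ε) * ((IPs a x).card / (V y * Real.log x)))).card : ℝ) ≤ ε * G :=
  ⟨Pool.Agent.R518.IP.IPs_low a, fun C ε hε hε1 => Pool.Agent.R518.IP.one a C ε hε hε1⟩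

end Pool.Agent.Results.MP_778b46_nt.AlmostAllMultiples
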