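import Pool.Agent.W23.SG.All
import Pool.Agent.TH665.GP.F3

/-!
# Sums of an iterated prime and an almost prime: a power of the logarithm of exceptions

Let `a ≥ 0`. The `a`-primes `p(p(⋯ p(x) ⋯))` (`a + 1` iterations of the function `x ↦ p(x)`, the
`x`-th prime) up to `X` are of the order of magnitude `X / (log X) ^ (a + 1)`. We prove: for all but
`C (log X) ^ a` of the integers `N` with `|N| ≤ 2 X` there are at least `c X / (log X) ^ (a + 1)`
`a`-primes `p ≤ X`, even in a prescribed subset of positive relative density, such that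
`|N - p| = m s`, where `m` has only prime factors `< X ^ ε` and `s` is `1`, a prime or a product of
two primes, all larger than `X ^ (1 / 7)`.

The proof is the theorem `sparse_sets` of `Pool/Agent/W23/SG/All` on arbitrary sparse sets of
primes, together with the lower bound for the number of the iterated primes of
`Pool/Agent/TH665/GP/F1`.
-/

set_option autoImplicit false

open Finset Filter

namespace Pool.Agent.Results.MP_778b46_nt.FewExceptionsAlmostPrime

open Classical in
/-- The `a`-primes up to `X`: the numbers `p ≤ X` which are `(a + 1)`-fold iterated primes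
`p(p(⋯ p(x) ⋯))`, `x ≥ 1`, where `p(x)` is the `x`-th prime. -/
noncomputable def iterPrimes (a X : ℕ) : Finset ℕ :=
  (range (X + 1)).filter (fun p => ∃ x : ℕ, 0 < x ∧
    Nat.iterate (fun k : ℕ => Nat.nth Nat.Prime (k - 1)) (a + 1) x = p)

/-- `N - p ≠ 0` and `|N - p| = m s`, where all prime factors of `m` are `< X ^ ε` and `s` has at most
two prime factors, counted with multiplicity, all of them `> X ^ (1 / 7)`. -/
def Rep (X : ℕ) (ε : ℝ) (N : ℤ) (p : ℕ) : Prop :=
  (p : ℤ) ≠ N ∧ ∃ m s : ℕ, (N - p).natAbs = m * s ∧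
    (∀ l : ℕ, l.Prime → l ∣ m → (l : ℝ) < (X : ℝ) ^ ε) ∧
    s.primeFactorsList.length ≤ 2 ∧
    ∀ q ∈ s.primeFactors, (X : ℝ) ^ (1 / 7 : ℝ) < q

theorem iter_card (a : ℕ) : ∃ c : ℝ, 0 < c ∧ ∃ y0 : ℕ, ∀ y : ℕ, y0 ≤ y →
    c * y ≤ (iterPrimes a y).card * Real.log y ^ (a + 1) := by
  classical
  obtain ⟨c, hc, y0, h⟩ := Pool.Agent.TH665.GP.density a
  refine ⟨c, hc, y0, fun y hy => ?_⟩
  obtain ⟨S, hS1, hS2, hS3⟩ := h y hy
  have hsub : S ⊆ iterPrimes a y := by
    intro p hp
    unfold iterPrimes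
    rw [mem_filter, mem_range]
    obtain ⟨u, hu, hu2⟩ := Pool.Agent.TH665.GP.exists_index (hS2 p hp)
    exact ⟨by have := (mem_Icc.1 (hS1 hp)).2; omega, u, hu, hu2⟩
  have h1 : (S.card : ℝ) ≤ (iterPrimes a y).card := by exact_mod_cast card_le_card hsub
  have hlog : 0 ≤ Real.log y := Real.log_natCast_nonneg y
  exact hS3.trans (mul_le_mul_of_nonneg_right h1 (pow_nonneg hlog _))

theorem iter_prime {a X p : ℕ} (h : p ∈ iterPrimes a X) : p.Prime ∧ p ≤ X := by
  classical
  unfold iterPrimes at h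
  rw [mem_filter, mem_range] at h
  obtain ⟨h1, x, -, h2⟩ := h
  refine ⟨?_, by omega⟩
  rw [← h2, Function.iterate_succ_apply']
  exact Nat.prime_nth_prime _

open Classical in
/-- **Sums of an `a`-prime and an almost prime, with few exceptions.** For all `a`, `δ > 0`, `ε > 0`
there are `c > 0`, `C` such that for all `X ≥ 2` and every subset `A` of the `a`-primes up to `X` of
relative density at least `δ`, for all but at most `C (log X) ^ a` of the integers `N`, `|N| ≤ 2 X`,
there are at least `c X / (log X) ^ (a + 1)` elements `p` of `A` with `Rep X ε N p`. -/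
theorem result (a : ℕ) (δ ε : ℝ) (hδ : 0 < δ) (hε : 0 < ε) :
    ∃ c C : ℝ, 0 < c ∧ ∀ X : ℕ, 2 ≤ X → ∀ A : Finset ℕ, A ⊆ iterPrimes a X →
      δ * (iterPrimes a X).card ≤ A.card →
      (((Icc (-(2 * X : ℤ)) (2 * X)).filter (fun N : ℤ =>
        ((A.filter (fun p : ℕ => Rep X ε N p)).card : ℝ) <
          c * (X / Real.log X ^ (a + 1)))).card : ℝ) ≤ C * Real.log X ^ a := by
  obtain ⟨c₁, C₁, η, hc₁, hη, H⟩ := Pool.Agent.W23.SG.sparse_sets ε hε
  obtain ⟨c₀, hc₀, y0, h0⟩ := iter_card a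
  have hlim : ∀ᶠ x : ℝ in atTop, Real.log x ^ ((a + 1 : ℕ) : ℝ) ≤ δ * c₀ * x ^ η := by
    have h1 := (isLittleO_log_rpow_rpow_atTop ((a + 1 : ℕ) : ℝ) hη).bound
      (show (0 : ℝ) < δ * c₀ by positivity)
    filter_upwards [h1, eventually_ge_atTop (1 : ℝ)] with x h2 h3
    rw [Real.norm_eq_abs, Real.norm_eq_abs, abs_of_nonneg (Real.rpow_nonneg (Real.log_nonneg h3) _),
      abs_of_nonneg (Real.rpow_nonneg (by linarith) _)] at h2
    exact h2
  obtain ⟨X1, hX1⟩ := eventually_atTop.1 (tendsto_natCast_atTop_atTop.eventually hlim)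
  set X0 : ℕ := max X1 y0 with hX0
  have hl2 : 0 < Real.log 2 := Real.log_pos (by norm_num)
  set C2 : ℝ := max C₁ 0 with hC2
  have hC20 : 0 ≤ C2 := le_max_right _ _
  refine ⟨c₁ * δ * c₀, C2 / (δ * c₀) + (4 * X0 + 1) / Real.log 2 ^ a, by positivity, ?_⟩
  intro X hX A hA hAc
  have hXR : (2 : ℝ) ≤ X := by exact_mod_cast hX
  have hX0' : (0 : ℝ) < X := by linarith
  have hL2 : Real.log 2 ≤ Real.log X := Real.log_le_log (by norm_num) hXR
  have hL : 0 < Real.log X := by linarith
  rcases Nat.lt_or_ge X X0 with hlt | hge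
  · have h1 : (((Icc (-(2 * X : ℤ)) (2 * X)).filter (fun N : ℤ =>
        ((A.filter (fun p : ℕ => Rep X ε N p)).card : ℝ) <
          c₁ * δ * c₀ * (X / Real.log X ^ (a + 1)))).card : ℝ) ≤ 4 * X0 + 1 := by
      have h2 := Finset.card_filter_le (Icc (-(2 * X : ℤ)) (2 * X)) (fun N : ℤ =>
        ((A.filter (fun p : ℕ => Rep X ε N p)).card : ℝ) <
          c₁ * δ * c₀ * (X / Real.log X ^ (a + 1)))
      rw [Int.card_Icc] at h2
      have h3 : (2 * (X : ℤ) + 1 - -(2 * X)).toNat ≤ 4 * X0 + 1 := by omega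
      exact_mod_cast h2.trans h3
    refine h1.trans ?_
    have h2 : (4 * X0 + 1 : ℝ) = (4 * X0 + 1) / Real.log 2 ^ a * Real.log 2 ^ a := by
      field_simp
    have h3 : Real.log 2 ^ a ≤ Real.log X ^ a := pow_le_pow_left₀ hl2.le hL2 a
    calc (4 * X0 + 1 : ℝ) = (4 * X0 + 1) / Real.log 2 ^ a * Real.log 2 ^ a := h2
      _ ≤ (4 * X0 + 1) / Real.log 2 ^ a * Real.log X ^ a := by gcongr
      _ ≤ _ := by
        apply mul_le_mul_of_nonneg_right _ (by positivity)
        have : 0 ≤ C2 / (δ * c₀) := by positivity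
        linarith
  · have hy : y0 ≤ X := le_trans (le_max_right _ _) hge
    have hx1 : X1 ≤ X := le_trans (le_max_left _ _) hge
    have h1 := h0 X hy
    have h2 := hX1 X hx1
    rw [Real.rpow_natCast] at h2
    set L : ℝ := Real.log X ^ (a + 1) with hLdef
    have hLpos : 0 < L := by positivity
    -- the size of `A`
    have h3 : δ * c₀ * X ≤ A.card * L := by
      calc δ * c₀ * X = δ * (c₀ * X) := by ring
        _ ≤ δ * ((iterPrimes a X).card * L) := by gcongr
        _ = δ * (iterPrimes a X).card * L := by ring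
        _ ≤ A.card * L := by gcongr
    have h4 : (X : ℝ) ^ (1 - η) ≤ A.card := by
      have h5 : (X : ℝ) ^ (1 - η) * L ≤ A.card * L := by
        calc (X : ℝ) ^ (1 - η) * L ≤ (X : ℝ) ^ (1 - η) * (δ * c₀ * (X : ℝ) ^ η) := by gcongr
          _ = δ * c₀ * ((X : ℝ) ^ (1 - η) * (X : ℝ) ^ η) := by ring
          _ = δ * c₀ * X := by
            rw [← Real.rpow_add hX0', sub_add_cancel, Real.rpow_one]
          _ ≤ _ := h3
      exact le_of_mul_le_mul_right h5 hLpos
    have hAp : (0 : ℝ) < A.card := lt_of_lt_of_le (Real.rpow_pos_of_pos hX0' _) h4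
    have h5 := H X hX A (fun p hp => iter_prime (hA hp)) h4
    have hsub : ((Icc (-(2 * X : ℤ)) (2 * X)).filter (fun N : ℤ =>
        ((A.filter (fun p : ℕ => Rep X ε N p)).card : ℝ) < c₁ * δ * c₀ * (X / L))) ⊆
        ((Icc (-(2 * X : ℤ)) (2 * X)).filter (fun N : ℤ => ((A.filter (fun p : ℕ =>
        (p : ℤ) ≠ N ∧ ∃ m s : ℕ, (N - p).natAbs = m * s ∧
          (∀ l : ℕ, l.Prime → l ∣ m → (l : ℝ) < (X : ℝ) ^ ε) ∧
          s.primeFactorsList.length ≤ 2 ∧
          ∀ q ∈ s.primeFactors, (X : ℝ) ^ (1 / 7 : ℝ) < q)).card : ℝ) < c₁ * A.card)) := by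
      intro N hN
      rw [mem_filter] at hN ⊢
      refine ⟨hN.1, lt_of_le_of_lt ?_ (lt_of_lt_of_le hN.2 ?_)⟩
      · have hs : (A.filter (fun p : ℕ =>
            (p : ℤ) ≠ N ∧ ∃ m s : ℕ, (N - p).natAbs = m * s ∧
              (∀ l : ℕ, l.Prime → l ∣ m → (l : ℝ) < (X : ℝ) ^ ε) ∧
              s.primeFactorsList.length ≤ 2 ∧
              ∀ q ∈ s.primeFactors, (X : ℝ) ^ (1 / 7 : ℝ) < q)) ⊆
            A.filter (fun p : ℕ => Rep X ε N p) := by
          intro p hp
          rw [mem_filter] at hp ⊢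
          exact hp
        exact_mod_cast card_le_card hs
      · have h6 : δ * c₀ * (X / L) ≤ A.card := by
          rw [← mul_div_assoc, div_le_iff₀ hLpos]
          exact h3
        calc c₁ * δ * c₀ * (X / L) = c₁ * (δ * c₀ * (X / L)) := by ring
          _ ≤ c₁ * A.card := by gcongr
    have h6 : (((Icc (-(2 * X : ℤ)) (2 * X)).filter (fun N : ℤ =>
        ((A.filter (fun p : ℕ => Rep X ε N p)).card : ℝ) < c₁ * δ * c₀ * (X / L))).card : ℝ) ≤
        C₁ * (X / (A.card * Real.log X)) :=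
      le_trans (by exact_mod_cast card_le_card hsub) h5
    refine h6.trans ?_
    have h7 : (X : ℝ) / (A.card * Real.log X) ≤ Real.log X ^ a / (δ * c₀) := by
      rw [div_le_div_iff₀ (by positivity) (by positivity)]
      calc (X : ℝ) * (δ * c₀) = δ * c₀ * X := by ring
        _ ≤ A.card * L := h3
        _ = Real.log X ^ a * (A.card * Real.log X) := by rw [hLdef, pow_succ]; ring
    calc C₁ * (X / (A.card * Real.log X)) ≤ C2 * (X / (A.card * Real.log X)) := by
          apply mul_le_mul_of_nonneg_right (le_max_left _ _) (by positivity)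
      _ ≤ C2 * (Real.log X ^ a / (δ * c₀)) := by gcongr
      _ = C2 / (δ * c₀) * Real.log X ^ a := by ring
      _ ≤ _ := by
        apply mul_le_mul_of_nonneg_right _ (by positivity)
        have : 0 ≤ (4 * X0 + 1 : ℝ) / Real.log 2 ^ a := by positivity
        linarith

end Pool.Agent.Results.MP_778b46_nt.FewExceptionsAlmostPrime
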