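import Pool.Agent.R502.WD.Gen2

/-!
# The smallest iterated prime-indexed summand

The question asks whether for all types `(a, b)` every large even number is a sum of an `a`-prime and
a `b`-prime. Here we bound the smallest `a`-prime in such a representation from below: put
`y_a = λ log X (log log X) ^ (a + 1)`. For every `m` and `λ`, for a positive proportion of the even
`N ≤ X`, for all `a ≤ m` and all `b`, in all the representations of `N` as a sum of an `a`-prime and a
`b`-prime the `a`-prime is larger than `y_a` (so that, for `b ≤ m`, the `b`-prime is larger than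
`y_b`). There are about `λ log X` `a`-primes up to `y_a`, so that a constant `λ` is the right order
for this to happen for a positive proportion of the `N` (type `(a, 0)`).
-/

set_option autoImplicit false

open Finset Filter

namespace Pool.Agent.Results.MP_778b46_nt.SmallestSummand

/-- the `x`-th `i`-prime -/
noncomputable def ip (i x : ℕ) : ℕ := (fun k : ℕ => Nat.nth Nat.Prime (k - 1))^[i + 1] x

/-- `y_i = λ log X (log log X) ^ (i + 1)` -/
noncomputable def y (i : ℕ) (lam X : ℝ) : ℝ :=
  lam * Real.log X * Real.log (Real.log X) ^ (i + 1)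

open Classical in
/-- **The smallest iterated prime-indexed summand, all types at once.** -/
theorem result (m : ℕ) (lam : ℝ) (hlam : 0 < lam) : ∃ δ : ℝ, 0 < δ ∧ ∃ X₀ : ℝ, ∀ X : ℝ, X₀ ≤ X →
    δ * X ≤ (((Icc 1 ⌊X⌋₊).filter (fun N => Even N ∧ ∀ a b u v : ℕ, a ≤ m → 0 < u → 0 < v →
      ip a u + ip b v = N → y a lam X < ip a u)).card : ℝ) := by
  obtain ⟨δ, hδ, X₀, h⟩ := Pool.Agent.R502.WD.gen_many (m + 1) Pool.Agent.R502.WD.IterPrime
    (fun a => a + 1) Pool.Agent.R502.WD.card_iterPrime lam hlam
  refine ⟨δ, hδ, X₀, fun X hX => (h X hX).trans ?_⟩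
  apply Nat.cast_le.2
  apply card_le_card
  intro N hN
  rw [mem_filter] at hN ⊢
  refine ⟨hN.1, hN.2.1, fun a b u v ha hu hv hN2 => ?_⟩
  have hprime : (ip b v).Prime := by
    unfold ip
    rw [Function.iterate_succ_apply']
    exact Nat.prime_nth_prime _
  exact hN.2.2 a (by omega) (ip a u) (ip b v) ⟨u, hu, rfl⟩ hprime hN2.symm

end Pool.Agent.Results.MP_778b46_nt.SmallestSummand
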